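import Pool.Agent.H50.ODG.Targets

/-!
# ORA: sizes (MP_397744_co)
-/

set_option autoImplicit false

open Pool.Agent.H57.CP Pool.Agent.H39.TO Pool.Agent.H39.OD Pool.Agent.H50.ODG

namespace Pool.Agent.H25.ODG

theorem pow_rf (hRFX : T_RFX) (x y : V4) (hx : mk x x = -1) (hy : mk y y = -1) (m : ℕ) (p : H3) :
    (((rf x * rf y) ^ m) p).1 = ((refl x * refl y) ^ m) p.1 := by
  induction m with
  | zero => rfl
  | succ m ih =>
    rw [pow_succ', pow_succ', Equiv.Perm.mul_apply, Equiv.Perm.mul_apply, (hRFX x hx).1,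
      (hRFX y hy).1, ih]
    rfl

theorem ord_rf (hOR3 : T_OR3) (hSPN : T_SPN) (hRFX : T_RFX) (x y : V4) (u : ℚ)
    (hx : mk x x = -1) (hy : mk y y = -1) (u0 : 0 < u) (u1 : u < 1) (h : mk x y = cn u) :
    oE (rf x * rf y) = (u.den : ℕ∞) := by
  have key : ∀ m : ℕ, (rf x * rf y) ^ m = 1 ↔ u.den ∣ m := by
    intro m
    rw [← hOR3 x y u hx hy u0 u1 h m]
    constructor
    · intro h1
      refine hSPN _ _ fun p => ?_
      rw [← pow_rf hRFX x y hx hy m p, h1]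
      rfl
    · intro h1
      apply Equiv.ext
      intro p
      apply Subtype.ext
      rw [pow_rf hRFX x y hx hy m p, h1]
      rfl
  have ho : orderOf (rf x * rf y) = u.den :=
    Nat.dvd_antisymm (orderOf_dvd_of_pow_eq_one ((key _).2 dvd_rfl))
      ((key _).1 (pow_orderOf_eq_one _))
  unfold oE
  rw [ho, if_neg u.den_nz]

theorem pf_ORA (hAEE : T_AEE) (hOR3 : T_OR3) (hGGL : T_GGL) (hSPN : T_SPN) (hRFX : T_RFX) :
    T_ORA := by
  intro u v w x x' n0 n1 n2 hC hu0 hu1 hv0 hv1 hw0 hw1 hA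
  obtain ⟨h1, h2⟩ := hAEE _ _ _ _ _ hA
  rw [h1, h2, ord_rf hOR3 hSPN hRFX n0 n1 w hC.u0 hC.u1 hw0 hw1 hC.e01,
    ord_rf hOR3 hSPN hRFX n0 n2 u hC.u0 hC.u2 hu0 hu1 hC.e02,
    ord_rf hOR3 hSPN hRFX n1 n2 v hC.u1 hC.u2 hv0 hv1 hC.e12]
  exact ⟨rfl, rfl⟩

end Pool.Agent.H25.ODG
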