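import Pool.Agent.H50.ODG.Targets

/-!
# SGN: choice of signs (MP_397744_co)
-/

set_option autoImplicit false

open Pool.Agent.H57.CP Pool.Agent.H39.TO Pool.Agent.H39.OD Pool.Agent.H50.ODG

namespace Pool.Agent.H25.ODG

theorem mk_negr (a b : V4) : mk a (-b) = -mk a b := by
  simp only [mk, Pi.neg_apply]
  ring

theorem mk_neg2 (b : V4) : mk (-b) (-b) = mk b b := by
  simp only [mk, Pi.neg_apply]
  ring

theorem refl_neg (n : V4) : refl (-n) = refl n := by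
  apply LinearMap.ext
  intro x
  funext i
  change x i + 2 * mk (-n) x * (-n) i = x i + 2 * mk n x * n i
  simp only [mk, Pi.neg_apply]
  ring

theorem sgn1 (a n : V4) (h : mk a n ≠ 0) : ∃ k, (k = n ∨ k = -n) ∧ mk a k < 0 := by
  rcases lt_or_gt_of_ne h with h | h
  · exact ⟨n, Or.inl rfl, h⟩
  · exact ⟨-n, Or.inr rfl, by rw [mk_negr]; linarith⟩

theorem pm (n k : V4) (h : k = n ∨ k = -n) :
    refl k = refl n ∧ mk k k = mk n n ∧ ∀ a, mk a k = 0 ↔ mk a n = 0 := by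
  rcases h with rfl | rfl
  · exact ⟨rfl, rfl, fun _ => Iff.rfl⟩
  · exact ⟨refl_neg n, mk_neg2 n, fun a => by rw [mk_negr, neg_eq_zero]⟩

theorem pf_SGN : T_SGN := by
  intro x x' z n0 n1 n2 u0 u1 u2 hx0 hx2 hx1' hx2' hx1 hx0' hz0 hz1 hO
  have hz2 : mk z.1 n2 ≠ 0 := fun h => hO ⟨z, hz0, hz1, h⟩
  obtain ⟨k0, h0, h0'⟩ := sgn1 x'.1 n0 hx0'
  obtain ⟨k1, h1, h1'⟩ := sgn1 x.1 n1 hx1
  obtain ⟨k2, h2, h2'⟩ := sgn1 z.1 n2 hz2
  obtain ⟨r0, s0, t0⟩ := pm n0 k0 h0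
  obtain ⟨r1, s1, t1⟩ := pm n1 k1 h1
  obtain ⟨r2, s2, t2⟩ := pm n2 k2 h2
  refine ⟨k0, k1, k2, h0, h1, h2, ?_, ?_⟩
  · exact
      { ux := s0.trans u0
        uy := s1.trans u1
        uz := s2.trans u2
        gx := Submonoid.subset_closure (by simp)
        gy := Submonoid.subset_closure (by simp)
        gz := Submonoid.subset_closure (by simp)
        Px := (t0 _).2 hz0
        Py := (t1 _).2 hz1
        Pz := h2'
        Qx := (t0 _).2 hx0
        Qz := (t2 _).2 hx2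
        Qy := h1'
        Ry := (t1 _).2 hx1'
        Rz := (t2 _).2 hx2'
        Rx := h0'
        ns := fun ⟨O, a0, a1, a2⟩ => hO ⟨O, (t0 _).1 a0, (t1 _).1 a1, (t2 _).1 a2⟩ }
  · unfold Gam
    rw [r0, r1, r2]

end Pool.Agent.H25.ODG
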